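import Pool.Agent.H559R8.Avg

/-!
# Razborov's approximation method on average, for planted cliques of any size
-/

namespace Pool.Agent.H559R10

open Finset Pool.Agent.H520R2 Pool.Agent.H559R4 Pool.Agent.H559R8

open Classical in
/-- A small monotone program has a small advantage. -/
theorem adv_avg_gap {k κ q B J r s c : ℕ} (hκ2 : 2 ≤ κ) (hc : 1 ≤ c)
    (hB1 : 1 ≤ B) (hJ1 : 1 ≤ J) (hr : 64 * (B * J * κ) ≤ r) (hJ : κ < 2 ^ J)
    (hq : 8 * c * r ≤ q) (hs1 : 4 * c * (s * ((κ + 1) * r ^ κ) ^ 2) ≤ q ^ (κ + 1))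
    (hs2 : 2 * c * (s * ((κ + 1) * r ^ κ) ^ 2) ≤ 4 ^ B)
    (g : SimpleGraph (Fin k × Fin q) → Bool)
    (hg : MComp (GB (Fin k × Fin q)) s g) :
    ((univ.filter (fun π : Fin k → Fin q =>
        g (posG (fun x : Fin k × Fin q => x) π) = true)).card : ℚ) *
      Fintype.card (Fin k × Fin q → Fin κ) * (2 * c) ≤
    ((univ.filter (fun ω : Fin k × Fin q → Fin κ => g (negG ω) = true)).card : ℚ) *
      Fintype.card (Fin k → Fin q) * (2 * c) +
      Fintype.card (Fin k × Fin q → Fin κ) * Fintype.card (Fin k → Fin q) := by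
  have hr1 : 1 ≤ r := by
    have : 0 < B * J * κ := by positivity
    omega
  have hq1 : 1 ≤ q := by
    have : 0 < 8 * c * r := by positivity
    omega
  obtain ⟨L, hL, hs, hfL⟩ := hg
  obtain ⟨EP, EN, hEN, hEP, hall⟩ := apprL_prog (κ := κ) (k := k) (q := q)
    (fun x : Fin k × Fin q => x) Function.injective_id hq1 hκ2 hB1 hJ1 hr hJ L hL
  obtain ⟨A, hA1, hA2, hA3, hA4⟩ := hall g hfL
  set Mx := (κ + 1) * r ^ κ with hMx
  set Ng := Fintype.card (Fin k × Fin q → Fin κ) with hNg
  set Pt := Fintype.card (Fin k → Fin q) with hPt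
  have hNg' : Ng = κ ^ Fintype.card (Fin k × Fin q) := by
    rw [hNg, Fintype.card_fun, Fintype.card_fin]
  have hPt' : Pt = q ^ k := by
    rw [hPt, Fintype.card_fun, Fintype.card_fin, Fintype.card_fin]
  rw [← hNg'] at hEN
  have hEP : EP.card * q ^ (κ + 1) ≤ L.length * (Mx ^ 2 * Pt) := by rw [hPt']; exact hEP
  have hPpos : 0 < Pt := by rw [hPt']; positivity
  have hs1' : 4 * c * (L.length * Mx ^ 2) ≤ q ^ (κ + 1) := by
    refine le_trans ?_ hs1
    gcongr
  have hs2' : 2 * c * (L.length * Mx ^ 2) ≤ 4 ^ B := by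
    refine le_trans ?_ hs2
    gcongr
  -- the error sets are small
  have hEN' : 2 * c * EN.card ≤ Ng := by
    have h1 : 4 ^ B * (2 * c * EN.card) ≤ 4 ^ B * Ng := by
      calc 4 ^ B * (2 * c * EN.card) = 2 * c * (EN.card * 4 ^ B) := by ring
        _ ≤ 2 * c * (L.length * (Mx ^ 2 * Ng)) := Nat.mul_le_mul_left _ hEN
        _ = 2 * c * (L.length * Mx ^ 2) * Ng := by ring
        _ ≤ 4 ^ B * Ng := Nat.mul_le_mul_right _ hs2'
    exact Nat.le_of_mul_le_mul_left h1 (by positivity)
  have hEP' : 4 * c * EP.card ≤ Pt := by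
    have h1 : q ^ (κ + 1) * (4 * c * EP.card) ≤ q ^ (κ + 1) * Pt := by
      calc q ^ (κ + 1) * (4 * c * EP.card) = 4 * c * (EP.card * q ^ (κ + 1)) := by ring
        _ ≤ 4 * c * (L.length * (Mx ^ 2 * Pt)) := Nat.mul_le_mul_left _ hEP
        _ = 4 * c * (L.length * Mx ^ 2) * Pt := by ring
        _ ≤ q ^ (κ + 1) * Pt := Nat.mul_le_mul_right _ hs1'
    exact Nat.le_of_mul_le_mul_left h1 (by positivity)
  set pc := (univ.filter (fun π : Fin k → Fin q =>
        g (posG (fun x : Fin k × Fin q => x) π) = true)).card with hpc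
  set nc := (univ.filter (fun ω : Fin k × Fin q → Fin κ => g (negG ω) = true)).card
    with hnc
  have hpcle : pc ≤ Pt := by
    rw [hpc, hPt]
    exact card_le_univ _
  have hc0 : (0 : ℚ) < c := by exact_mod_cast hc
  have hNg0 : (0 : ℚ) ≤ Ng := Nat.cast_nonneg _
  have hPt0 : (0 : ℚ) ≤ Pt := Nat.cast_nonneg _
  by_cases hsmall : ∃ S ∈ A, S.card ≤ 1
  · -- almost all negative tests are accepted
    obtain ⟨S, hS, hS1⟩ := hsmall
    have h1 : Ng ≤ nc + EN.card := by
      have hcov : (univ : Finset (Fin k × Fin q → Fin κ)) ⊆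
          (univ.filter (fun ω : Fin k × Fin q → Fin κ => g (negG ω) = true)) ∪ EN := by
        intro ω _
        rw [mem_union, mem_filter]
        by_cases hω : ω ∈ EN
        · exact Or.inr hω
        · refine Or.inl ⟨mem_univ _, hA4 ω hω ⟨S, hS, ?_⟩⟩
          intro a ha b hb _
          exact card_le_one.1 hS1 a ha b hb
      have := (card_le_card hcov).trans (card_union_le _ _)
      rwa [card_univ] at this
    have h2 : (Ng : ℚ) ≤ nc + EN.card := by exact_mod_cast h1
    have h3 : 2 * (c : ℚ) * EN.card ≤ Ng := by exact_mod_cast hEN'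
    have h4 : (pc : ℚ) ≤ Pt := by exact_mod_cast hpcle
    calc (pc : ℚ) * Ng * (2 * c) ≤ Pt * Ng * (2 * c) := by gcongr
      _ ≤ Pt * (nc + EN.card) * (2 * c) := by gcongr
      _ = nc * Pt * (2 * c) + Pt * (2 * c * EN.card) := by ring
      _ ≤ nc * Pt * (2 * c) + Pt * Ng := by gcongr
      _ = _ := by ring
  · -- few positive tests are accepted
    push Not at hsmall
    have hcov : (univ.filter (fun π : Fin k → Fin q =>
        g (posG (fun x : Fin k × Fin q => x) π) = true)) ⊆
        EP ∪ A.biUnion (fun S => hit (fun x : Fin k × Fin q => x) S) := by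
      intro π hπ
      rw [mem_filter] at hπ
      rw [mem_union]
      by_cases hE : π ∈ EP
      · exact Or.inl hE
      · right
        obtain ⟨S, hS, hSπ⟩ := hA3 π hE hπ.2
        rw [mem_biUnion]
        refine ⟨S, hS, ?_⟩
        simp only [hit, mem_filter, mem_univ, true_and]
        exact hSπ
    have h1 : pc ≤ EP.card + ∑ S ∈ A, (hit (fun x : Fin k × Fin q => x) S).card :=
      (card_le_card hcov).trans ((card_union_le _ _).trans
        (Nat.add_le_add_left card_biUnion_le _))
    have hq0 : (0 : ℚ) < q := by exact_mod_cast hq1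
    have h2 : (∑ S ∈ A, ((hit (fun x : Fin k × Fin q => x) S).card : ℚ)) ≤
        Pt * (1 / (8 * c)) := by
      have h3 : ∀ S ∈ A, ((hit (fun x : Fin k × Fin q => x) S).card : ℚ) ≤
          Pt * (1 / (q : ℚ)) ^ S.card := by
        intro S _
        have h4 := hit_card (fun x : Fin k × Fin q => x) Function.injective_id S
        rw [← hPt'] at h4
        have h5 : ((hit (fun x : Fin k × Fin q => x) S).card : ℚ) * q ^ S.card ≤ Pt := by
          exact_mod_cast h4
        rw [one_div, inv_pow, ← div_eq_mul_inv, le_div_iff₀ (by positivity)]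
        exact h5
      refine (sum_le_sum h3).trans ?_
      rw [← mul_sum]
      apply mul_le_mul_of_nonneg_left _ hPt0
      have h6 : ∑ S ∈ A, (1 / (q : ℚ)) ^ S.card =
          ∑ l ∈ Finset.Ico 2 (κ + 1), ∑ S ∈ A.filter (fun S => S.card = l),
            (1 / (q : ℚ)) ^ S.card := by
        rw [sum_fiberwise_of_maps_to]
        intro S hS
        rw [Finset.mem_Ico]
        have := hsmall S hS
        have := hA1 S hS
        omega
      rw [h6]
      calc ∑ l ∈ Finset.Ico 2 (κ + 1), ∑ S ∈ A.filter (fun S => S.card = l),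
            (1 / (q : ℚ)) ^ S.card
          ≤ ∑ l ∈ Finset.Ico 2 (κ + 1), (1 / (4 * c)) * (1 / 2 : ℚ) ^ l := by
            apply sum_le_sum
            intro l hl
            rw [Finset.mem_Ico] at hl
            have h7 : ∑ S ∈ A.filter (fun S => S.card = l), (1 / (q : ℚ)) ^ S.card =
                (A.filter (fun S => S.card = l)).card * (1 / (q : ℚ)) ^ l := by
              rw [← nsmul_eq_mul, ← sum_const]
              apply sum_congr rfl
              intro S hS
              rw [(mem_filter.1 hS).2]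
            rw [h7]
            have h8 : ((A.filter (fun S => S.card = l)).card : ℚ) ≤ (r : ℚ) ^ l := by
              exact_mod_cast hA2 l (by omega)
            have h9 : (r : ℚ) * (1 / q) ≤ 1 / (8 * c) := by
              rw [mul_one_div, div_le_div_iff₀ hq0 (by positivity)]
              have : ((8 * c * r : ℕ) : ℚ) ≤ (q : ℚ) := by exact_mod_cast hq
              push_cast at this
              linarith
            have hr0 : (0 : ℚ) ≤ r := Nat.cast_nonneg _
            calc ((A.filter (fun S => S.card = l)).card : ℚ) * (1 / (q : ℚ)) ^ l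
                ≤ (r : ℚ) ^ l * (1 / (q : ℚ)) ^ l := by gcongr
              _ = ((r : ℚ) * (1 / q)) ^ l := by rw [mul_pow]
              _ ≤ (1 / (8 * (c : ℚ))) ^ l := by gcongr
              _ = (1 / (4 * (c : ℚ))) ^ l * (1 / 2) ^ l := by
                  rw [← mul_pow]
                  congr 1
                  field_simp
                  norm_num
              _ ≤ (1 / (4 * (c : ℚ))) * (1 / 2) ^ l := by
                  apply mul_le_mul_of_nonneg_right _ (by positivity)
                  have hc1 : (1 : ℚ) ≤ c := by exact_mod_cast hc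
                  have h10 : 1 / (4 * (c : ℚ)) ≤ 1 := by
                    rw [div_le_one (by positivity)]
                    linarith
                  calc (1 / (4 * (c : ℚ))) ^ l ≤ (1 / (4 * (c : ℚ))) ^ 1 :=
                        pow_le_pow_of_le_one (by positivity) h10 (by omega)
                    _ = _ := pow_one _
        _ = (1 / (4 * c)) * ∑ l ∈ Finset.Ico 2 (κ + 1), (1 / 2 : ℚ) ^ l := by rw [mul_sum]
        _ ≤ (1 / (4 * c)) * (1 / 2) := by
            apply mul_le_mul_of_nonneg_left (half_sum κ) (by positivity)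
        _ = _ := by field_simp; norm_num
    have h11 : (pc : ℚ) ≤ EP.card + Pt * (1 / (8 * c)) := by
      have h12 : (pc : ℚ) ≤ EP.card +
          ∑ S ∈ A, ((hit (fun x : Fin k × Fin q => x) S).card : ℚ) := by
        exact_mod_cast h1
      linarith
    have h13 : 4 * (c : ℚ) * EP.card ≤ Pt := by exact_mod_cast hEP'
    have h14 : (pc : ℚ) * (2 * c) ≤ Pt := by
      have h15 : (pc : ℚ) * (2 * c) ≤ (EP.card + Pt * (1 / (8 * c))) * (2 * c) := by gcongr
      have h16 : (EP.card + Pt * (1 / (8 * (c : ℚ)))) * (2 * c) = 2 * c * EP.card + Pt / 4 := by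
        field_simp
        ring
      rw [h16] at h15
      linarith
    have h17 : (0 : ℚ) ≤ nc * Pt * (2 * c) := by positivity
    calc (pc : ℚ) * Ng * (2 * c) = Ng * (pc * (2 * c)) := by ring
      _ ≤ Ng * Pt := by gcongr
      _ ≤ _ := by linarith

end Pool.Agent.H559R10
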