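import Mathlib

/-!
# Intersection non-emptiness of deterministic finite automata: definitions
-/

namespace Pool.Agent.H559R10

/-- The letters `(i, none)` and `(i, some b)`, for `i < n` and `b ∈ {0, 1}`. -/
abbrev Letter (n : ℕ) : Type := Fin n × Option Bool

/-- The DFA with the states `false`, `true` and a dead state `none` that stores a bit: it starts
with `false`, the letter `(i, none)` stores `true`, the letter `(i, some b)` leads to the dead
state unless the stored bit is `b`, all the other letters leave the state as it is. The states
`false` and `true` are accepting. -/
def memo {n : ℕ} (i : Fin n) : DFA (Letter n) (Option Bool) where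
  step s a := if a.1 = i then
      (match a.2 with
        | none => s.map (fun _ => true)
        | some b => if s = some b then s else none)
    else s
  start := some false
  accept := {s | s ≠ none}

/-- A DFA with the states `0, ..., M` and a dead state `none`, start state `0` and accepting
state `M`. -/
structure Proper {n M : ℕ} (B : DFA (Letter n) (Option (Fin (M + 1)))) : Prop where
  start : B.start = some 0
  accept : B.accept = {some (Fin.last M)}
  dead : ∀ a, B.step none a = none

/-- The binary number of a state: `0` for the dead state and `q + 1` for the state `q`. -/
def code {M : ℕ} : Option (Fin (M + 1)) → ℕ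
  | none => 0
  | some q => q + 1

/-- The transition table: bit `r` of the number of the state reached from `q` with letter `a`. -/
def table {n M : ℕ} (B : DFA (Letter n) (Option (Fin (M + 1)))) :
    Fin (M + 1) × Letter n × Fin (Nat.size (M + 1)) → Bool :=
  fun z => (code (B.step (some z.1) z.2.1)).testBit z.2.2

/-- Some word is accepted by `B` and by all the automata `memo i`. -/
def Meet {n M : ℕ} (B : DFA (Letter n) (Option (Fin (M + 1)))) : Prop :=
  ∃ w : List (Letter n), w ∈ B.accepts ∧ ∀ i : Fin n, w ∈ (memo i).accepts

end Pool.Agent.H559R10
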