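import Pool.Agent.H520R2.NMDefs
import Pool.Agent.H559R4.SatDefs
import Pool.Agent.H559R8.Main
import Pool.Agent.H559R10.DfaDefs

/-!
# Intersection non-emptiness of deterministic finite automata
-/

namespace Pool.Agent.H559R10

open Finset Filter Pool.Agent.H520R2.NM Pool.Agent.H559R4 Pool.Agent.H559R8

section Subst

variable {ι ι' : Type}

/-- Substitute inputs and constants for the inputs of a wire. -/
def wsub (e : ι → ι' ⊕ Bool) {n : ℕ} : Wire ι n → Wire ι' n
  | .input i => match e i with
    | Sum.inl i' => .input i'
    | Sum.inr b => .const b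
  | .const b => .const b
  | .gate j => .gate j

theorem wsub_eval (e : ι → ι' ⊕ Bool) {n : ℕ} (a : Wire ι n) (x : ι' → Bool)
    (v : Fin n → Bool) :
    (wsub e a).eval x v = a.eval (fun i => (e i).elim x id) v := by
  cases a with
  | input i =>
    simp only [wsub, Wire.eval]
    cases e i <;> rfl
  | const b => rfl
  | gate j => rfl

/-- Substitute inputs and constants for the inputs of a circuit. -/
def csub (e : ι → ι' ⊕ Bool) : {n : ℕ} → Circuit ι n → Circuit ι' n
  | _, .empty => .empty
  | _, .and C a b => .and (csub e C) (wsub e a) (wsub e b)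
  | _, .or C a b => .or (csub e C) (wsub e a) (wsub e b)
  | _, .any C w u G a => .any (csub e C) w u G (fun j => wsub e (a j))

theorem csub_vals (e : ι → ι' ⊕ Bool) {n : ℕ} (C : Circuit ι n) (x : ι' → Bool) :
    (csub e C).vals x = C.vals (fun i => (e i).elim x id) := by
  induction C with
  | empty => rfl
  | and C a b ih => simp only [csub, Circuit.vals, ih, wsub_eval]
  | or C a b ih => simp only [csub, Circuit.vals, ih, wsub_eval]
  | any C w u G a ih => simp only [csub, Circuit.vals, ih, wsub_eval]

theorem csub_size (e : ι → ι' ⊕ Bool) {n : ℕ} (C : Circuit ι n) :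
    (csub e C).size = C.size := by
  induction C with
  | empty => rfl
  | and C a b ih => simp only [csub, Circuit.size, ih]
  | or C a b ih => simp only [csub, Circuit.size, ih]
  | any C w u G a ih => simp only [csub, Circuit.size, ih]

theorem csub_fanins (e : ι → ι' ⊕ Bool) {n : ℕ} (C : Circuit ι n) :
    (csub e C).fanins = C.fanins := by
  induction C with
  | empty => rfl
  | and C a b ih => simp only [csub, Circuit.fanins, ih]
  | or C a b ih => simp only [csub, Circuit.fanins, ih]
  | any C w u G a ih => simp only [csub, Circuit.fanins, ih]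

end Subst

variable {n M : ℕ}

/-- The automaton that checks the clauses of a formula. -/
def chk (φ : Fin M × Fin n × Bool → Bool) : DFA (Letter n) (Option (Fin (M + 1))) where
  step s a := s.bind (fun q =>
    match a.2 with
    | none => if q = 0 then some 0 else none
    | some b => if h : (q : ℕ) < M then
        (if φ (⟨q, h⟩, a.1, b) = true then some ⟨q + 1, by omega⟩ else none)
      else none)
  start := some 0
  accept := {some (Fin.last M)}

theorem chk_proper (φ : Fin M × Fin n × Bool → Bool) : Proper (chk φ) :=
  ⟨rfl, rfl, fun _ => rfl⟩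

theorem sat_of_word (φ : Fin M × Fin n × Bool → Bool) (w : List (Letter n)) :
    ∀ (q : Fin (M + 1)) (s : Fin n → Bool), (chk φ).eval w = some q →
      (∀ i, (memo i).eval w = some (s i)) →
      ∀ j : Fin M, (j : ℕ) < q → ∃ i, φ (j, i, s i) = true := by
  induction w using List.reverseRecOn with
  | nil =>
    intro q s hq _ j hj
    rw [DFA.eval_nil] at hq
    have : (some 0 : Option (Fin (M + 1))) = some q := hq
    rw [Option.some.injEq] at this
    rw [← this] at hj
    simp at hj
  | append_singleton w a ih =>
    intro q s hq hs j hj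
    rw [DFA.eval_append_singleton] at hq
    obtain ⟨i0, o⟩ := a
    -- the previous state of the checking automaton
    obtain ⟨q', hq'⟩ : ∃ q', (chk φ).eval w = some q' := by
      cases h : (chk φ).eval w with
      | none =>
        rw [h] at hq
        exact absurd hq (by simp [chk])
      | some q' => exact ⟨q', rfl⟩
    rw [hq'] at hq
    cases o with
    | none =>
      exfalso
      have hq2 : (if q' = 0 then some 0 else none : Option (Fin (M + 1))) = some q := hq
      split_ifs at hq2 with h0
      rw [Option.some.injEq] at hq2
      rw [← hq2] at hj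
      simp at hj
    | some b =>
      have hq2 : (if h : (q' : ℕ) < M then
          (if φ (⟨q', h⟩, i0, b) = true then some ⟨q' + 1, by omega⟩ else none)
          else none : Option (Fin (M + 1))) = some q := hq
      split_ifs at hq2 with h1 h2
      rw [Option.some.injEq] at hq2
      have hqv : (q : ℕ) = q' + 1 := by rw [← hq2]
      -- the memory automata keep their states
      have hmem : ∀ i, (memo i).eval w = some (s i) := by
        intro i
        have h3 := hs i
        rw [DFA.eval_append_singleton] at h3
        have h4 : (if i0 = i then (if (memo i).eval w = some b then (memo i).eval w else none)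
          else (memo i).eval w) = some (s i) := h3
        split_ifs at h4 with h5 h6
        · exact h4
        · exact h4
      have hb : s i0 = b := by
        have h3 := hs i0
        rw [DFA.eval_append_singleton] at h3
        have h4 : (if i0 = i0 then (if (memo i0).eval w = some b then (memo i0).eval w else none)
          else (memo i0).eval w) = some (s i0) := h3
        rw [if_pos rfl] at h4
        split_ifs at h4 with h6
        rw [h6, Option.some.injEq] at h4
        exact h4.symm
      rcases Nat.lt_or_ge (j : ℕ) q' with h3 | h3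
      · exact ih q' s hq' hmem j h3
      · have hj' : j = ⟨q', h1⟩ := Fin.ext (by simp only; omega)
        refine ⟨i0, ?_⟩
        rw [hj', hb]
        exact h2

theorem evalFrom_loops (φ : Fin M × Fin n × Bool → Bool) (l : List (Fin n)) :
    (chk φ).evalFrom (some 0) (l.map (fun i => (i, none))) = some 0 := by
  induction l with
  | nil => rfl
  | cons i l ih =>
    rw [List.map_cons, DFA.evalFrom_cons]
    have : (chk φ).step (some 0) (i, none) = some 0 := by simp [chk]
    rw [this, ih]

theorem memo_loops (i : Fin n) (l : List (Fin n)) (b : Bool) :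
    (memo i).evalFrom (some b) (l.map (fun i => (i, none))) = some (b || decide (i ∈ l)) := by
  induction l generalizing b with
  | nil => simp
  | cons j l ih =>
    rw [List.map_cons, DFA.evalFrom_cons]
    by_cases hji : j = i
    · have : (memo i).step (some b) (j, none) = some true := by simp [memo, hji]
      rw [this, ih]
      simp [hji]
    · have : (memo i).step (some b) (j, none) = some b := by simp [memo, hji]
      rw [this, ih]
      have hij : i ≠ j := fun h => hji h.symm
      simp [hij]

theorem memo_checks (i : Fin n) (a : Fin n → Bool) (l : List (Fin n)) :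
    (memo i).evalFrom (some (a i)) (l.map (fun j => (j, some (a j)))) = some (a i) := by
  induction l with
  | nil => rfl
  | cons j l ih =>
    rw [List.map_cons, DFA.evalFrom_cons]
    have : (memo i).step (some (a i)) (j, some (a j)) = some (a i) := by
      by_cases hji : j = i
      · subst hji
        simp [memo]
      · simp [memo, hji]
    rw [this, ih]

theorem chk_checks (φ : Fin M × Fin n × Bool → Bool) (a : Fin n → Bool) (f : Fin M → Fin n)
    (hf : ∀ j, φ (j, f j, a (f j)) = true) : ∀ (t : ℕ) (ht : t ≤ M),
    (chk φ).evalFrom (some 0) (((List.finRange M).take t).map (fun j => (f j, some (a (f j))))) =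
      some ⟨t, by omega⟩ := by
  intro t
  induction t with
  | zero =>
    intro _
    rfl
  | succ t ih =>
    intro ht
    have h1 : (List.finRange M).take (t + 1) = (List.finRange M).take t ++ [⟨t, ht⟩] := by
      rw [List.take_succ]
      congr 1
      rw [List.getElem?_eq_getElem (by simpa using ht)]
      simp
    rw [h1, List.map_append, List.map_singleton, DFA.evalFrom_append_singleton, ih (by omega)]
    have h2 : (chk φ).step (some ⟨t, by omega⟩) (f ⟨t, ht⟩, some (a (f ⟨t, ht⟩))) =
        (if h : t < M then
          (if φ (⟨t, h⟩, f ⟨t, ht⟩, a (f ⟨t, ht⟩)) = true then some ⟨t + 1, by omega⟩ else none)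
          else none : Option (Fin (M + 1))) := rfl
    rw [h2, dif_pos (show t < M from ht), if_pos (hf _)]

theorem meet_iff (φ : Fin M × Fin n × Bool → Bool) : Meet (chk φ) ↔ Sat φ := by
  constructor
  · rintro ⟨w, hw, hm⟩
    have h1 : ∀ i, ∃ b, (memo i).eval w = some b := by
      intro i
      have h2 : (memo i).eval w ≠ none := hm i
      exact Option.ne_none_iff_exists'.1 h2
    choose s hs using h1
    have h3 : (chk φ).eval w = some (Fin.last M) := hw
    refine ⟨s, ?_⟩
    intro j
    exact sat_of_word φ w _ s h3 hs j j.2
  · rintro ⟨a, ha⟩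
    choose f hf using ha
    refine ⟨((List.finRange n).filter (fun i => a i)).map (fun i => (i, none)) ++
      (List.finRange M).map (fun j => (f j, some (a (f j)))), ?_, ?_⟩
    · rw [DFA.mem_accepts]
      have h1 : (chk φ).start = some 0 := rfl
      have h2 := chk_checks φ a f hf M le_rfl
      rw [List.take_of_length_le (by simp)] at h2
      rw [DFA.eval, h1, DFA.evalFrom_of_append, evalFrom_loops, h2]
      rfl
    · intro i
      rw [DFA.mem_accepts]
      have h1 : (memo i).start = some false := rfl
      have h3 : (List.finRange M).map (fun j => (f j, some (a (f j)))) =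
          ((List.finRange M).map f).map (fun j => (j, some (a j))) := by
        rw [List.map_map]
        rfl
      have h4 : (false || decide (i ∈ (List.finRange n).filter (fun i => a i))) = a i := by
        simp
      rw [DFA.eval, h1, DFA.evalFrom_of_append, memo_loops, h3, h4, memo_checks]
      exact Option.some_ne_none _

/-- The table of the checking automaton is a projection of the formula. -/
def sel (z : Fin (M + 1) × Letter n × Fin (Nat.size (M + 1))) :
    (Fin M × Fin n × Bool) ⊕ Bool :=
  match z.2.1.2 with
  | none => Sum.inr (if z.1 = 0 then (1 : ℕ).testBit z.2.2 else false)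
  | some b => if h : (z.1 : ℕ) < M then
      (if ((z.1 : ℕ) + 2).testBit z.2.2 = true then Sum.inl (⟨z.1, h⟩, z.2.1.1, b)
        else Sum.inr false)
      else Sum.inr false

theorem table_chk (φ : Fin M × Fin n × Bool → Bool) :
    table (chk φ) = fun z => (sel z).elim φ id := by
  funext z
  obtain ⟨q, ⟨i, o⟩, r⟩ := z
  cases o with
  | none =>
    have h1 : (chk φ).step (some q) (i, none) =
        (if q = 0 then some 0 else none : Option (Fin (M + 1))) := rfl
    simp only [table, sel, h1]
    split_ifs with h2
    · simp [code]
    · simp [code]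
  | some b =>
    have h1 : (chk φ).step (some q) (i, some b) = (if h : (q : ℕ) < M then
        (if φ (⟨q, h⟩, i, b) = true then some ⟨q + 1, by omega⟩ else none)
        else none : Option (Fin (M + 1))) := rfl
    simp only [table, sel, h1]
    by_cases h2 : (q : ℕ) < M
    · rw [dif_pos h2, dif_pos h2]
      by_cases h3 : φ (⟨q, h2⟩, i, b) = true
      · rw [if_pos h3]
        have h4 : code (some ⟨(q : ℕ) + 1, by omega⟩ : Option (Fin (M + 1))) = (q : ℕ) + 2 := rfl
        rw [h4]
        split_ifs with h5
        · rw [Sum.elim_inl, h3, h5]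
        · rw [Sum.elim_inr, id]
          simpa using h5
      · rw [if_neg h3]
        have h4 : code (none : Option (Fin (M + 1))) = 0 := rfl
        rw [h4, Nat.zero_testBit]
        split_ifs with h5
        · rw [Sum.elim_inl]
          simpa using h3
        · rfl
    · rw [dif_neg h2, dif_neg h2]
      have h4 : code (none : Option (Fin (M + 1))) = 0 := rfl
      rw [h4, Nat.zero_testBit]
      rfl

theorem csub_correct (φ : Fin M × Fin n × Bool → Bool) {N : ℕ}
    (C : Circuit (Fin (M + 1) × Letter n × Fin (Nat.size (M + 1))) N)
    (out : Wire (Fin (M + 1) × Letter n × Fin (Nat.size (M + 1))) N) :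
    (out.eval (table (chk φ)) (C.vals (table (chk φ))) = true ↔ Meet (chk φ)) ↔
      ((wsub sel out).eval φ ((csub sel C).vals φ) = true ↔ Sat φ) := by
  rw [wsub_eval, csub_vals, meet_iff, table_chk]

open Classical in
theorem dfa_rand (δ : ℝ) (hδ : 0 < δ) (A : ℕ) : ∃ c : ℕ, ∀ᶠ n : ℕ in atTop,
    ∀ M P : ℕ, 1 ≤ P → n ^ c * P ≤ M →
      (∃ (Λ : Type) (_ : Fintype Λ) (_ : Nonempty Λ)
        (B : Λ → DFA (Letter n) (Option (Fin (M + 1)))), (∀ l, Proper (B l)) ∧
        ∀ (N : ℕ) (C : Circuit (Fin (M + 1) × Letter n × Fin (Nat.size (M + 1))) N)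
          (out : Wire (Fin (M + 1) × Letter n × Fin (Nat.size (M + 1))) N),
          (C.fanins.map (· + 1)).prod ≤ P →
          ((C.size + C.fanins.sum : ℕ) : ℝ) * P < 2 ^ ((1 - δ) * n) →
          ((univ.filter (fun l =>
            (out.eval (table (B l)) (C.vals (table (B l))) = true ↔ Meet (B l)))).card : ℝ) <
            (1 / 2 + 1 / (n : ℝ) ^ A) * Fintype.card Λ) ∧
      ∀ (Ω : Type) [Fintype Ω] (w : Ω → ℝ), (∀ r, 0 ≤ w r) → ∑ r, w r = 1 →
        ∀ (N : Ω → ℕ)
          (C : ∀ r, Circuit (Fin (M + 1) × Letter n × Fin (Nat.size (M + 1))) (N r))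
          (out : ∀ r, Wire (Fin (M + 1) × Letter n × Fin (Nat.size (M + 1))) (N r)),
          (∀ r, ((C r).fanins.map (· + 1)).prod ≤ P) →
          (∀ r, (((C r).size + (C r).fanins.sum : ℕ) : ℝ) * P < 2 ^ ((1 - δ) * n)) →
          ∃ B : DFA (Letter n) (Option (Fin (M + 1))), Proper B ∧
            ∑ r ∈ univ.filter (fun r =>
              ((out r).eval (table B) ((C r).vals (table B)) = true ↔ Meet B)), w r <
              1 / 2 + 1 / (n : ℝ) ^ A := by
  obtain ⟨c, hc⟩ := main_rand δ hδ A
  refine ⟨c, ?_⟩
  filter_upwards [hc] with n hn
  intro M P hP hM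
  obtain ⟨⟨Λ, hΛ1, hΛ2, φ, _, hφ⟩, h2⟩ := hn M P hP hM
  refine ⟨⟨Λ, hΛ1, hΛ2, fun l => chk (φ l), fun l => chk_proper _, ?_⟩, ?_⟩
  · intro N C out h3 h4
    have h5 := hφ N (csub sel C) (wsub sel out) (by rwa [csub_fanins])
      (by rwa [csub_size, csub_fanins])
    simp only [csub_correct]
    exact h5
  · intro Ω _ w hw hw1 N C out h3 h4
    obtain ⟨φ', _, h5⟩ := h2 Ω w hw hw1 N (fun r => csub sel (C r)) (fun r => wsub sel (out r))
      (fun r => by rw [csub_fanins]; exact h3 r)
      (fun r => by rw [csub_size, csub_fanins]; exact h4 r)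
    refine ⟨chk φ', chk_proper _, ?_⟩
    simp only [csub_correct]
    exact h5

end Pool.Agent.H559R10
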