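import Pool.Agent.H559R10.GapDist
import Pool.Agent.H559R9.Dist

/-!
# Circuits with few non-monotone gates cannot approximate the clique number
-/

namespace Pool.Agent.H559R10

open Finset Filter Pool.Agent.H520R2 Pool.Agent.H520R2.NM Pool.Agent.H559R4 Pool.Agent.H559R8
  Pool.Agent.H559R9

variable {n s q P : ℕ}

/-- A clique of the union with at least three vertices is contained in one block. -/
theorem block_clique (D : Design n s q P) (Y : Fin P → SimpleGraph (Fin s × Fin q)) {k : ℕ}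
    (hk : 3 ≤ k) (h : ¬ (D.union Y).CliqueFree k) : ∃ p, ¬ (Y p).CliqueFree k := by
  classical
  unfold SimpleGraph.CliqueFree at h
  push Not at h
  obtain ⟨t, ht⟩ := h
  have hcl := ht.isClique
  have hcard := ht.card_eq
  obtain ⟨f, hf, hfs⟩ : ∃ f : Fin k → Fin n, Function.Injective f ∧ ∀ i, f i ∈ t :=
    ⟨t.orderEmbOfFin hcard, (t.orderEmbOfFin hcard).injective,
      fun i => t.orderEmbOfFin_mem hcard i⟩
  -- the block `p` contains the edge from `i` to `j`
  let E : Fin P → Fin k → Fin k → Prop := fun p i j =>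
    ∃ a b, D.pt p a = f i ∧ D.pt p b = f j ∧ a.1 ≠ b.1 ∧ (Y p).Adj a b
  have hEx : ∀ i j, i ≠ j → ∃ p, E p i j := by
    intro i j hij
    obtain ⟨p, a, b, h⟩ := hcl (hfs i) (hfs j) (fun h => hij (hf h))
    exact ⟨p, a, b, h⟩
  have hEs : ∀ p i j, E p i j → E p j i := by
    rintro p i j ⟨a, b, h1, h2, h3, h4⟩
    exact ⟨b, a, h2, h1, h3.symm, h4.symm⟩
  have htri : ∀ p p' p'' i j m, E p i j → E p' j m → E p'' m i → p = p' ∧ p' = p'' := by
    rintro p p' p'' i j m ⟨a, b, h1, h2, h3, _⟩ ⟨a', b', h1', h2', h3', _⟩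
      ⟨a'', b'', h1'', h2'', h3'', _⟩
    exact D.tri p p' p'' a b a' b' a'' b'' (h2.trans h1'.symm) (h2'.trans h1''.symm)
      (h2''.trans h1.symm) h3 h3' h3''
  let z : Fin k := ⟨0, by omega⟩
  let o : Fin k := ⟨1, by omega⟩
  have hzo : z ≠ o := by
    intro h
    have := congrArg Fin.val h
    simp [z, o] at this
  obtain ⟨p, hp⟩ := hEx z o hzo
  have hm : ∀ m, m ≠ z → m ≠ o → E p o m ∧ E p m z := by
    intro m h1 h2
    obtain ⟨p', hp'⟩ := hEx o m h2.symm
    obtain ⟨p'', hp''⟩ := hEx m z h1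
    obtain ⟨rfl, rfl⟩ := htri p p' p'' z o m hp hp' hp''
    exact ⟨hp', hp''⟩
  have hall : ∀ i j, i ≠ j → E p i j := by
    intro i j hij
    by_cases hiz : i = z
    · by_cases hjo : j = o
      · rw [hiz, hjo]; exact hp
      · rw [hiz]
        exact hEs _ _ _ (hm j (by rw [← hiz]; exact hij.symm) hjo).2
    · by_cases hio : i = o
      · by_cases hjz : j = z
        · rw [hio, hjz]; exact hEs _ _ _ hp
        · rw [hio]
          exact (hm j hjz (by rw [← hio]; exact hij.symm)).1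
      · by_cases hjz : j = z
        · rw [hjz]; exact (hm i hiz hio).2
        · by_cases hjo : j = o
          · rw [hjo]; exact hEs _ _ _ (hm i hiz hio).1
          · obtain ⟨p', hp'⟩ := hEx i j hij
            obtain ⟨h1, h2⟩ := htri p' p p i j z hp' (hm j hjz hjo).2
              (hEs _ _ _ (hm i hiz hio).2)
            rw [← h1]
            exact hp'
  -- the vertices of the block
  have hg : ∀ i, ∃ a, D.pt p a = f i := by
    intro i
    by_cases hiz : i = z
    · obtain ⟨a, b, h1, _⟩ := hall i o (by rw [hiz]; exact hzo)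
      exact ⟨a, h1⟩
    · obtain ⟨a, b, h1, _⟩ := hall i z hiz
      exact ⟨a, h1⟩
  choose g hg using hg
  have hadj : ∀ i j, i ≠ j → (g i).1 ≠ (g j).1 ∧ (Y p).Adj (g i) (g j) := by
    intro i j hij
    obtain ⟨a, b, h1, h2, h3, h4⟩ := hall i j hij
    have ha : a = g i := D.inj p (h1.trans (hg i).symm)
    have hb : b = g j := D.inj p (h2.trans (hg j).symm)
    rw [← ha, ← hb]
    exact ⟨h3, h4⟩
  have hinj : Function.Injective g := by
    intro i j h
    by_contra hij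
    exact (hadj i j hij).1 (by rw [h])
  refine ⟨p, ?_⟩
  unfold SimpleGraph.CliqueFree
  push Not
  refine ⟨univ.image g, ?_⟩
  rw [SimpleGraph.isNClique_iff]
  constructor
  · intro u hu v hv huv
    simp only [coe_image, coe_univ, Set.image_univ, Set.mem_range] at hu hv
    obtain ⟨i, rfl⟩ := hu
    obtain ⟨j, rfl⟩ := hv
    exact (hadj i j (fun h => huv (by rw [h]))).2
  · rw [card_image_of_injective _ hinj, card_univ, Fintype.card_fin]

/-- A clique with one vertex in each class of a block is a clique of the union. -/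
theorem union_clique (D : Design n s q P) (Y : Fin P → SimpleGraph (Fin s × Fin q))
    (p : Fin P) (hp : Tcl (Y p)) : ¬ (D.union Y).CliqueFree s := by
  classical
  obtain ⟨π, hπ⟩ := hp
  unfold SimpleGraph.CliqueFree
  push Not
  have hinj : Function.Injective (fun i : Fin s => D.pt p (i, π i)) := by
    intro i j h
    exact congrArg Prod.fst (D.inj p h)
  refine ⟨univ.image (fun i => D.pt p (i, π i)), ?_⟩
  rw [SimpleGraph.isNClique_iff]
  constructor
  · intro u hu v hv huv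
    simp only [coe_image, coe_univ, Set.image_univ, Set.mem_range] at hu hv
    obtain ⟨i, rfl⟩ := hu
    obtain ⟨j, rfl⟩ := hv
    have hij : i ≠ j := fun h => huv (by rw [h])
    refine ⟨p, _, _, rfl, rfl, hij, ?_⟩
    rcases lt_or_gt_of_ne hij with h | h
    · exact hπ i j h
    · exact (hπ j i h).symm
  · rw [card_image_of_injective _ hinj, card_univ, Fintype.card_fin]

theorem negG_cliqueFree {W : Type} {κ : ℕ} (ω : W → Fin κ) : (negG ω).CliqueFree (κ + 1) := by
  have hc : (negG ω).Colorable κ := ⟨⟨ω, fun {a b} h => h⟩⟩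
  exact hc.cliqueFree (Nat.lt_succ_self κ)

/-- The answer `b` is right for the promise problem to tell graphs with a clique of `s` vertices
from graphs without clique of `k` vertices. -/
def RightGap {n : ℕ} (s k : ℕ) (x : Sym2 (Fin n) → Bool) (b : Bool) : Prop :=
  (¬ (SimpleGraph.fromEdgeSet {e | x e = true}).CliqueFree s → b = true) ∧
    ((SimpleGraph.fromEdgeSet {e | x e = true}).CliqueFree k → b = false)

/-- The graph has a clique of `s` vertices or no clique of `k` vertices. -/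
def PromiseGap {n : ℕ} (s k : ℕ) (x : Sym2 (Fin n) → Bool) : Prop :=
  ¬ (SimpleGraph.fromEdgeSet {e | x e = true}).CliqueFree s ∨
    (SimpleGraph.fromEdgeSet {e | x e = true}).CliqueFree k

open Classical in
theorem gap_block {κ s b c S P n : ℕ} (hκ : 2 ≤ κ) (hs : κ + 1 ≤ s) (hb : 2 ≤ b) (hc : 1 ≤ c)
    (hP : 0 < P) (D : Design n s (2 ^ b) P)
    (hq : 8 * c * (64 * ((κ + 1) * b * κ * κ)) ≤ 2 ^ b)
    (hS : 4 * c * (S * apx2 κ b ^ 2) ≤ 2 ^ ((κ + 1) * b)) :
    ∃ (Λ : Type) (_ : Fintype Λ) (_ : Nonempty Λ) (x : Λ → Sym2 (Fin n) → Bool),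
      (∀ l, PromiseGap s (κ + 1) (x l)) ∧
      ∀ (N : ℕ) (C : Circuit (Sym2 (Fin n)) N) (out : Wire (Sym2 (Fin n)) N),
        C.size + C.fanins.sum ≤ S → c * (C.fanins.map (· + 1)).prod ≤ P →
        2 * c * (univ.filter (fun l =>
          RightGap s (κ + 1) (x l) (out.eval (x l) (C.vals (x l))))).card <
          (c + 2) * Fintype.card Λ := by
  have : Nonempty (Fin κ) := ⟨⟨0, by omega⟩⟩
  have : Nonempty (Fin (2 ^ b)) := ⟨⟨0, by positivity⟩⟩
  let W := Fin s × Fin (2 ^ b)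
  let E' : (Fin P → Set (Sym2 W)) → Sym2 (Fin n) → Bool := fun y =>
    D.enc (fun j => SimpleGraph.fromEdgeSet (y j))
  obtain ⟨Λ, hΛ1, hΛ2, Y, yes, hyes, hno, hD⟩ := gap_dist (ι := Sym2 (Fin n)) (α := Sym2 W)
    (Pt := Fin s → Fin (2 ^ b)) (Ng := W → Fin κ) P hP
    (fun π => (posG (fun x : W => x) π).edgeSet) (fun ω => (negG ω).edgeSet) c S E'
    (fun y y' h => D.enc_mono (fun j => SimpleGraph.fromEdgeSet_mono (h j)))
    (by
      intro z J g hg
      have hg' := base_conv D.enc (fun Y J f hf => D.enc_base Y J f hf) z J g S hg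
      have key := adv_avg_gap (k := s) (κ := κ) (q := 2 ^ b) (B := (κ + 1) * b) (J := κ)
        (r := 64 * ((κ + 1) * b * κ * κ)) (s := S) (c := c) hκ hc
        (Nat.mul_pos (by omega) (by omega)) (by omega) le_rfl Nat.lt_two_pow_self hq
        (by
          rw [← pow_mul, mul_comm b]
          exact hS)
        (by
          have h4 : 2 ^ ((κ + 1) * b) ≤ 4 ^ ((κ + 1) * b) := Nat.pow_le_pow_left (by norm_num) _
          unfold apx2 at hS
          refine le_trans ?_ (hS.trans h4)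
          apply Nat.mul_le_mul_right
          omega)
        (g ∘ fun G : SimpleGraph W => G.edgeSet) hg'
      exact key)
  -- the graphs
  have hgr : ∀ l, SimpleGraph.fromEdgeSet {e | E' (Y l) e = true} =
      D.union (fun j => SimpleGraph.fromEdgeSet (Y l j)) := fun l => D.enc_graph _
  have h1 : ∀ l, yes l → ¬ (D.union (fun j => SimpleGraph.fromEdgeSet (Y l j))).CliqueFree s := by
    intro l hl
    obtain ⟨j, π, hj⟩ := hyes l hl
    apply union_clique D _ j
    simp only [hj, SimpleGraph.fromEdgeSet_edgeSet]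
    exact tcl_posG π
  have h2 : ∀ l, ¬ yes l →
      (D.union (fun j => SimpleGraph.fromEdgeSet (Y l j))).CliqueFree (κ + 1) := by
    intro l hl
    by_contra hcon
    obtain ⟨p, hp⟩ := block_clique D _ (by omega) hcon
    apply hp
    rcases hno l hl p with ⟨ω, hω⟩ | h0
    · rw [hω, SimpleGraph.fromEdgeSet_edgeSet]
      exact negG_cliqueFree ω
    · rw [h0, SimpleGraph.fromEdgeSet_empty]
      exact SimpleGraph.cliqueFree_bot (by omega)
  refine ⟨Λ, hΛ1, hΛ2, fun l => E' (Y l), ?_, ?_⟩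
  · intro l
    unfold PromiseGap
    simp only [hgr]
    by_cases hl : yes l
    · exact Or.inl (h1 l hl)
    · exact Or.inr (h2 l hl)
  · intro N C out hC1 hC2
    refine lt_of_le_of_lt (Nat.mul_le_mul_left _ (card_le_card ?_)) (hD N C out hC1 hC2)
    intro l hl
    rw [mem_filter] at hl ⊢
    refine ⟨mem_univ _, ?_⟩
    obtain ⟨hr1, hr2⟩ := hl.2
    simp only [hgr] at hr1 hr2
    constructor
    · intro ho
      by_contra hl
      have := hr2 (h2 l hl)
      rw [ho] at this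
      exact absurd this (by simp)
    · intro hl
      exact hr1 (h1 l hl)

open Classical in
theorem gap_main {k s : ℕ} (hk : 3 ≤ k) (hs : k ≤ s) {γ θ : ℝ} (hγ : 0 ≤ γ) (hθ : 0 < θ)
    (h : θ + γ / 2 < 1) :
    ∃ α : ℝ, 0 < α ∧ ∀ᶠ n : ℕ in atTop,
      ∃ (Λ : Type) (_ : Fintype Λ) (_ : Nonempty Λ) (x : Λ → Sym2 (Fin n) → Bool),
        (∀ l, PromiseGap s k (x l)) ∧
        ∀ (N : ℕ) (C : Circuit (Sym2 (Fin n)) N) (out : Wire (Sym2 (Fin n)) N),
          (((C.fanins.map (· + 1)).prod : ℕ) : ℝ) ≤ (n : ℝ) ^ γ →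
          ((C.size + C.fanins.sum : ℕ) : ℝ) < (n : ℝ) ^ (θ * k) →
          ((univ.filter (fun l =>
            RightGap s k (x l) (out.eval (x l) (C.vals (x l))))).card : ℝ) <
            (1 / 2 + (n : ℝ) ^ (-α)) * Fintype.card Λ := by
  obtain ⟨κ, rfl⟩ : ∃ κ, k = κ + 1 := ⟨k - 1, by omega⟩
  have hκ : 2 ≤ κ := by omega
  have hk3 : (3 : ℝ) ≤ ((κ + 1 : ℕ) : ℝ) := by exact_mod_cast hk
  set η : ℝ := 1 - γ / 2 - θ with hη
  have hη0 : 0 < η := by
    rw [hη]
    linarith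
  refine ⟨η / 4, by linarith, ?_⟩
  have hα : 0 < η / 4 := by linarith
  have hpar := params4 hκ (α := η / 4) (θ := θ) (θ' := θ + η / 2) hα hθ (by linarith) (by
    nlinarith)
  have hdes := design_exists (k := s) (by omega) (γ := γ + η / 2) (θ := θ + η / 2)
    (by linarith) (by linarith) (by
      rw [hη]
      linarith)
  filter_upwards [hpar, hdes, eventually_ge_atTop 1, rpow_ge 2 hα] with n h1 h2 hn1 h3
  obtain ⟨hb2, hc1, hq, hS⟩ := h1
  obtain ⟨P, hP, ⟨D⟩⟩ := h2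
  obtain ⟨b, hb⟩ : ∃ b, b = ⌊(θ + η / 2) * Real.logb 2 (n : ℝ)⌋₊ := ⟨_, rfl⟩
  rw [← hb] at hb2 hq hS D
  have hn0 : (0 : ℝ) < n := by exact_mod_cast hn1
  have hn1' : (1 : ℝ) ≤ n := by exact_mod_cast hn1
  set c := ⌈(n : ℝ) ^ (η / 4)⌉₊ with hc
  have hcge : (n : ℝ) ^ (η / 4) ≤ c := Nat.le_ceil _
  have hcle : (c : ℝ) ≤ (n : ℝ) ^ (η / 2) := by
    have h4 := (Nat.ceil_lt_add_one (a := (n : ℝ) ^ (η / 4)) (by positivity)).le
    have h5 : (n : ℝ) ^ (η / 2) = (n : ℝ) ^ (η / 4) * (n : ℝ) ^ (η / 4) := by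
      rw [← Real.rpow_add hn0]
      congr 1
      ring
    rw [h5]
    nlinarith
  have hP0 : 0 < P := by
    have h4 : (0 : ℝ) < P := lt_of_lt_of_le (by positivity) hP
    exact_mod_cast h4
  set Z : ℝ := (n : ℝ) ^ (θ * (κ + 1 : ℕ)) with hZ
  have hZ0 : 0 < Z := by positivity
  have hceil : 0 < ⌈Z⌉₊ := Nat.ceil_pos.2 hZ0
  have hSlt : ((⌈Z⌉₊ - 1 : ℕ) : ℝ) < Z := Nat.lt_ceil.1 (by omega)
  obtain ⟨Λ, hΛ1, hΛ2, x, hx, hY⟩ := gap_block (κ := κ) (s := s) (b := b) (c := c)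
    (S := ⌈Z⌉₊ - 1) (P := P) hκ hs hb2 hc1 hP0 D hq (hS _ hSlt)
  refine ⟨Λ, hΛ1, hΛ2, x, hx, ?_⟩
  intro N C out hC1 hC2
  have hC3 : C.size + C.fanins.sum ≤ ⌈Z⌉₊ - 1 := by
    have : C.size + C.fanins.sum < ⌈Z⌉₊ := Nat.lt_ceil.2 hC2
    omega
  have hC4 : c * (C.fanins.map (· + 1)).prod ≤ P := by
    have : ((c * (C.fanins.map (· + 1)).prod : ℕ) : ℝ) ≤ (P : ℝ) := by
      rw [Nat.cast_mul]
      calc (c : ℝ) * ((C.fanins.map (· + 1)).prod : ℕ) ≤ (n : ℝ) ^ (η / 2) * (n : ℝ) ^ γ := by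
            gcongr
        _ = (n : ℝ) ^ (γ + η / 2) := by
            rw [← Real.rpow_add hn0, add_comm]
        _ ≤ P := hP
    exact_mod_cast this
  have key := hY N C out hC3 hC4
  have hc0 : (0 : ℝ) < c := lt_of_lt_of_le (by positivity) hcge
  have key' : 2 * (c : ℝ) * ((univ.filter (fun l =>
      RightGap s (κ + 1) (x l) (out.eval (x l) (C.vals (x l))))).card : ℝ) <
      ((c : ℝ) + 2) * Fintype.card Λ := by exact_mod_cast key
  have hΛ0 : (0 : ℝ) < Fintype.card Λ := by exact_mod_cast Fintype.card_pos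
  have h6 : 1 / (c : ℝ) ≤ (n : ℝ) ^ (-(η / 4)) := by
    rw [Real.rpow_neg hn0.le, one_div]
    exact inv_anti₀ (by positivity) hcge
  calc ((univ.filter (fun l =>
      RightGap s (κ + 1) (x l) (out.eval (x l) (C.vals (x l))))).card : ℝ)
      < (((c : ℝ) + 2) * Fintype.card Λ) / (2 * c) := by
        rw [lt_div_iff₀ (by positivity), mul_comm]
        exact key'
    _ = (1 / 2 + 1 / c) * Fintype.card Λ := by field_simp
    _ ≤ _ := by gcongr

open Classical in
/-- No fixed-parameter approximation of the clique number by circuits with few non-monotone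
gates. -/
theorem fpt_gap (f s : ℕ → ℕ) (hs : ∀ k, k ≤ s k) (c : ℕ) (γ : ℝ) (hγ0 : 0 ≤ γ) (hγ : γ < 2) :
    ∀ᶠ k : ℕ in atTop, ∃ α : ℝ, 0 < α ∧ ∀ᶠ n : ℕ in atTop,
      (∃ (Λ : Type) (_ : Fintype Λ) (_ : Nonempty Λ) (x : Λ → Sym2 (Fin n) → Bool),
        (∀ l, PromiseGap (s k) k (x l)) ∧
        ∀ (N : ℕ) (C : Circuit (Sym2 (Fin n)) N) (out : Wire (Sym2 (Fin n)) N),
          (((C.fanins.map (· + 1)).prod : ℕ) : ℝ) ≤ (n : ℝ) ^ γ →
          C.size + C.fanins.sum ≤ f k * n ^ c →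
          ((univ.filter (fun l =>
            RightGap (s k) k (x l) (out.eval (x l) (C.vals (x l))))).card : ℝ) <
            (1 / 2 + (n : ℝ) ^ (-α)) * Fintype.card Λ) ∧
      ∀ (Ω : Type) [Fintype Ω] (w : Ω → ℝ), (∀ r, 0 ≤ w r) → ∑ r, w r = 1 →
        ∀ (N : Ω → ℕ) (C : ∀ r, Circuit (Sym2 (Fin n)) (N r))
          (out : ∀ r, Wire (Sym2 (Fin n)) (N r)),
          (∀ r, ((((C r).fanins.map (· + 1)).prod : ℕ) : ℝ) ≤ (n : ℝ) ^ γ) →
          (∀ r, (C r).size + (C r).fanins.sum ≤ f k * n ^ c) →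
          ∃ x : Sym2 (Fin n) → Bool, PromiseGap (s k) k x ∧
            ∑ r ∈ univ.filter (fun r =>
              RightGap (s k) k x ((out r).eval x ((C r).vals x))), w r <
              1 / 2 + (n : ℝ) ^ (-α) := by
  have hk1 : ∀ᶠ k : ℕ in atTop, ((c : ℝ) + 1) / (1 - γ / 2) < k :=
    tendsto_natCast_atTop_atTop.eventually_gt_atTop _
  filter_upwards [hk1, eventually_ge_atTop 3] with k hk hk3
  have hpos : 0 < 1 - γ / 2 := by linarith
  have hk0 : (0 : ℝ) < k := by
    have : (3 : ℝ) ≤ k := by exact_mod_cast hk3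
    linarith
  have hθ : 0 < ((c : ℝ) + 1) / k := by positivity
  obtain ⟨α, hα, hmain⟩ := gap_main (k := k) (s := s k) hk3 (hs k) hγ0 hθ (by
    have : ((c : ℝ) + 1) / k < 1 - γ / 2 := by
      rw [div_lt_iff₀ hk0]
      rw [div_lt_iff₀ hpos] at hk
      linarith
    linarith)
  refine ⟨α, hα, ?_⟩
  filter_upwards [hmain, eventually_gt_atTop (f k), eventually_ge_atTop 1] with n hn hnf hn1
  obtain ⟨Λ, hΛ1, hΛ2, x, hx, hx2⟩ := hn
  have hsz : ∀ m : ℕ, m ≤ f k * n ^ c → (m : ℝ) < (n : ℝ) ^ (((c : ℝ) + 1) / k * k) := by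
    intro m hm
    rw [div_mul_cancel₀ _ hk0.ne']
    have h1 : m < n ^ (c + 1) := by
      calc m ≤ f k * n ^ c := hm
        _ < n * n ^ c := Nat.mul_lt_mul_of_pos_right hnf (by positivity)
        _ = _ := by ring
    have h2 : (m : ℝ) < (n : ℝ) ^ (c + 1) := by exact_mod_cast h1
    rw [← Real.rpow_natCast] at h2
    push_cast at h2
    exact h2
  refine ⟨⟨Λ, hΛ1, hΛ2, x, hx, fun N C out h1 h2 => hx2 N C out h1 (hsz _ h2)⟩, ?_⟩
  intro Ω _ w hw hw1 N C out h1 h2
  obtain ⟨l, hl⟩ := rand_of_dist' (1 / 2 + (n : ℝ) ^ (-α))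
    (fun r l => RightGap (s k) k (x l) ((out r).eval (x l) ((C r).vals (x l)))) w hw hw1
    (fun r => hx2 _ (C r) (out r) (h1 r) (hsz _ (h2 r)))
  exact ⟨x l, hx l, hl⟩

end Pool.Agent.H559R10
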