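import Pool.Agent.H560R2.Av4
import Pool.Agent.H559R8.Dist
import Pool.Agent.H559R9.Num
import Pool.Agent.H559R10.Avg

/-!
# A hard distribution for a promise problem
-/

namespace Pool.Agent.H559R10

open Finset Filter Pool.Agent.H520R2 Pool.Agent.H520R2.NM Pool.Agent.H559R4 Pool.Agent.H560R2
  Pool.Agent.H559R8 Pool.Agent.H559R9

open Classical in
/-- A hard distribution for a promise problem (compare `H559R8.hard_dist'`). -/
theorem gap_dist {ι α Pt Ng : Type} [Fintype Pt] [Nonempty Pt] [Fintype Ng] [Nonempty Ng]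
    (m : ℕ) (hm : 0 < m) (pos : Pt → Set α) (neg : Ng → Set α) (c S : ℕ)
    (E : (Fin m → Set α) → ι → Bool) (hmono : ∀ y y', (∀ j, y j ⊆ y' j) → E y ≤ E y')
    (hadv : ∀ (z : Fin m → Set α) (J : Fin m) (g : Set α → Bool),
      MComp (blockBase E z J) S g →
      ((univ.filter (fun p => g (pos p) = true)).card : ℚ) * Fintype.card Ng * (2 * c) ≤
        ((univ.filter (fun ω => g (neg ω) = true)).card : ℚ) * Fintype.card Pt * (2 * c) +
          Fintype.card Ng * Fintype.card Pt) :
    ∃ (Λ : Type) (_ : Fintype Λ) (_ : Nonempty Λ) (D : Λ → Fin m → Set α) (yes : Λ → Prop),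
      (∀ l, yes l → ∃ j p, D l j = pos p) ∧
      (∀ l, ¬ yes l → ∀ j, (∃ ω, D l j = neg ω) ∨ D l j = ∅) ∧
      ∀ (n : ℕ) (C : Circuit ι n) (out : Wire ι n), C.size + C.fanins.sum ≤ S →
        c * (C.fanins.map (· + 1)).prod ≤ m →
        2 * c * (univ.filter (fun l =>
          (out.eval (E (D l)) (C.vals (E (D l))) = true ↔ yes l))).card <
          (c + 2) * Fintype.card Λ := by
  have : Nonempty (Fin m) := ⟨⟨0, hm⟩⟩
  let Λ0 := Fin m × (Fin m → Ng) × Pt
  let Dp : Λ0 → ι → Bool := fun l => E (Function.update (stt neg l.2.1 l.1) l.1 (pos l.2.2))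
  let Dn : Λ0 → ι → Bool := fun l => E (stt neg l.2.1 (l.1 + 1))
  let Ep : Λ0 → Fin m → Set α := fun l =>
    Function.update (stt neg l.2.1 l.1) l.1 (pos l.2.2)
  let En : Λ0 → Fin m → Set α := fun l => stt neg l.2.1 (l.1 + 1)
  refine ⟨Λ0 ⊕ Λ0, inferInstance, inferInstance, Sum.elim Ep En,
    Sum.elim (fun _ => True) (fun _ => False), ?_, ?_, ?_⟩
  · rintro (l | l) hl
    · exact ⟨l.1, l.2.2, Function.update_self _ _ _⟩
    · exact hl.elim
  · rintro (l | l) hl j
    · exact absurd trivial hl
    · by_cases hjl : j.val < l.1 + 1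
      · left
        refine ⟨l.2.1 j, ?_⟩
        simp only [Sum.elim_inr, En]
        ext v
        simp [stt, hjl]
      · right
        simp only [Sum.elim_inr, En]
        ext v
        simp [stt, hjl]
  intro n C out hS hK
  have hEe : ∀ l, E (Sum.elim Ep En l) = Sum.elim Dp Dn l := by
    rintro (l | l) <;> rfl
  simp only [hEe]
  have hch := rchain pos neg c E hmono C out (by
    intro z J g hg
    apply hadv z J g
    obtain ⟨L, h1, h2, h3⟩ := hg
    exact ⟨L, h1, h2.trans hS, h3⟩)
  set K := (C.fanins.map (· + 1)).prod with hKdef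
  -- counting the correct answers
  have hcount : (univ.filter (fun l : Λ0 ⊕ Λ0 =>
      (out.eval (Sum.elim Dp Dn l) (C.vals (Sum.elim Dp Dn l)) = true ↔
        (Sum.elim (fun _ => True) (fun _ => False) l : Prop)))).card =
      (univ.filter (fun l : Λ0 => out.eval (Dp l) (C.vals (Dp l)) = true)).card +
      (univ.filter (fun l : Λ0 => ¬ out.eval (Dn l) (C.vals (Dn l)) = true)).card := by
    rw [← Finset.univ_disjSum_univ, Finset.card_filter, Finset.sum_disjSum, Finset.card_filter,
      Finset.card_filter]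
    congr 1
    · apply Finset.sum_congr rfl
      intro l _
      simp only [Sum.elim_inl, iff_true]
    · apply Finset.sum_congr rfl
      intro l _
      simp only [Sum.elim_inr, iff_false]
  have hpos' : (((univ.filter (fun l : Λ0 => out.eval (Dp l) (C.vals (Dp l)) = true)).card : ℕ) : ℚ)
      = ∑ i : Fin m, ∑ y : Fin m → Ng, ((univ.filter (fun p : Pt =>
        out.eval (E (Function.update (stt neg y i) i (pos p)))
          (C.vals (E (Function.update (stt neg y i) i (pos p)))) = true)).card : ℚ) := by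
    rw [Finset.card_filter]
    push_cast
    rw [Fintype.sum_prod_type]
    apply Finset.sum_congr rfl
    intro i _
    rw [Fintype.sum_prod_type]
    apply Finset.sum_congr rfl
    intro y _
    rw [Finset.card_filter]
    push_cast
    rfl
  have hneg' : (((univ.filter (fun l : Λ0 => out.eval (Dn l) (C.vals (Dn l)) = true)).card : ℕ) : ℚ)
      = (∑ i : Fin m, ((univ.filter (fun y : Fin m → Ng =>
        out.eval (E (stt neg y (i + 1))) (C.vals (E (stt neg y (i + 1)))) = true)).card : ℚ)) *
          Fintype.card Pt := by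
    rw [Finset.card_filter]
    push_cast
    rw [Fintype.sum_prod_type, Finset.sum_mul]
    apply Finset.sum_congr rfl
    intro i _
    rw [Fintype.sum_prod_type, Finset.card_filter]
    push_cast
    rw [Finset.sum_mul]
    apply Finset.sum_congr rfl
    intro y _
    have : ∀ q : Pt, Dn (i, y, q) = E (stt neg y (i + 1)) := fun _ => rfl
    simp only [this]
    rw [Finset.sum_const, Finset.card_univ, nsmul_eq_mul, mul_comm]
  have hsplit := Finset.card_filter_add_card_filter_not (s := (univ : Finset Λ0))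
    (fun l : Λ0 => out.eval (Dn l) (C.vals (Dn l)) = true)
  rw [Finset.card_univ] at hsplit
  have hΛ0 : (Fintype.card Λ0 : ℚ) = m * (Fintype.card (Fin m → Ng) * Fintype.card Pt) := by
    rw [Fintype.card_prod, Fintype.card_prod, Fintype.card_fin]
    push_cast
    ring
  have hNp : (0 : ℚ) < Fintype.card (Fin m → Ng) * Fintype.card Pt := by
    have h1 : 0 < Fintype.card (Fin m → Ng) := Fintype.card_pos
    have h2 : 0 < Fintype.card Pt := Fintype.card_pos
    exact_mod_cast Nat.mul_pos h1 h2
  have hKq : (c : ℚ) * K ≤ m := by exact_mod_cast hK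
  have hmq : (0 : ℚ) < m := by exact_mod_cast hm
  have hc0 : (0 : ℚ) ≤ c := Nat.cast_nonneg _
  rw [hcount]
  have goal : (2 : ℚ) * c *
      (((univ.filter (fun l : Λ0 => out.eval (Dp l) (C.vals (Dp l)) = true)).card : ℕ) +
      ((univ.filter (fun l : Λ0 => ¬ out.eval (Dn l) (C.vals (Dn l)) = true)).card : ℕ) : ℚ) <
      (c + 2) * (2 * Fintype.card Λ0) := by
    have hs2 : (((univ.filter (fun l : Λ0 => ¬ out.eval (Dn l) (C.vals (Dn l)) = true)).card : ℕ) :
        ℚ) = Fintype.card Λ0 -
        (((univ.filter (fun l : Λ0 => out.eval (Dn l) (C.vals (Dn l)) = true)).card : ℕ) : ℚ) := by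
      have : (((univ.filter (fun l : Λ0 => out.eval (Dn l) (C.vals (Dn l)) = true)).card +
        (univ.filter (fun l : Λ0 => ¬ out.eval (Dn l) (C.vals (Dn l)) = true)).card : ℕ) : ℚ) =
        Fintype.card Λ0 := by exact_mod_cast hsplit
      push_cast at this
      linarith
    rw [hs2, hpos', hneg', hΛ0]
    set NP : ℚ := (Fintype.card (Fin m → Ng) : ℚ) * Fintype.card Pt with hNPdef
    have h3 : NP * (2 * c * ((K : ℚ) - 1) + m) < NP * (4 * m) := by
      apply mul_lt_mul_of_pos_left _ hNp
      linarith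
    linarith
  have hcardΛ : Fintype.card (Λ0 ⊕ Λ0) = 2 * Fintype.card Λ0 := by
    rw [Fintype.card_sum]; ring
  rw [hcardΛ]
  exact_mod_cast goal


end Pool.Agent.H559R10
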